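import Pool.Agent.Lib.MP_ba3dea_co.Graph

section

set_option autoImplicit false

namespace Pool.Agent.Lib.MP_ba3dea_co

def tab : Fin 12 → ℕ := ![
  1654245596780669325954208861044842995923748398479899539741399350939869114018098374949181207902489735250579456,
  295150998896019004876018352532766476408520316790665758689043395481873984311031814475745427512611194741628928,
  295132796594419367131828376427328611081611350536528995290802342740388658224217565449104232754057962925329856,
  1823508111504897379001125038874381936132578869003281491171352624594289632874401581585131268274569944274005440,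
  295114594292819729387646171027572943751369972719919818585398144048768791806154904847958581320761880373059008,
  295150998896019004876018352532766476408520316790665758689043395481873984311031814475745427508670414071242368,
  295123695443619548259733388374609678418156867409460613591681816369645995180810440935783635374002995864243648,
  295123695443619548259733388374609678418156867409460613591681816369645995180810440935783635374600580433931712,
  295132796594419367131828376427328611081611350536528995290802342740388658224217565449104232738083227205078464,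
  814292981476069830706459252535072589149383549320328448814120525785927473635316851501479805036027549301088320,
  1762586956067340200332724533345346549700838514723113168212631357293814923149989604505622400382972153594338752,
  295105493142019910515551182974854011087915489592851436886277617674193186831423476621318286863562730980199872]

/-- an st-numbering of the graph with the vertex `a` removed -/
def posOf (a v : V) : ℕ := (tab a.2 >>> (6 * (12 * (v.1 - a.1).val + v.2.val))) % 64

def src (a : V) : V := (a.1, if a.2 = 0 then 1 else 0)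

def lst (a : V) : V := (a.1, if a.2 = 0 then 6 else if a.2 = 5 then 1 else 5)

set_option maxRecDepth 100000 in
theorem c1' : ∀ (i : Fin 5) (k : Fin 12) (j : Fin 5) (l : Fin 12), (j, l) ≠ (i, k) →
    (j, l) ≠ src (i, k) → ∃ t : Fin 3, nb (j, l) t ≠ (i, k) ∧
      posOf (i, k) (nb (j, l) t) < posOf (i, k) (j, l) := by
  decide +kernel

set_option maxRecDepth 100000 in
theorem c2' : ∀ (i : Fin 5) (k : Fin 12) (j : Fin 5) (l : Fin 12), (j, l) ≠ (i, k) →
    (j, l) ≠ lst (i, k) → ∃ t : Fin 3, nb (j, l) t ≠ (i, k) ∧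
      posOf (i, k) (j, l) < posOf (i, k) (nb (j, l) t) := by
  decide +kernel

set_option maxRecDepth 100000 in
theorem c3' : ∀ (i : Fin 5) (k : Fin 12), (∃ t : Fin 3, nb (src (i, k)) t = lst (i, k)) ∧
    posOf (i, k) (src (i, k)) = 0 ∧ src (i, k) ≠ (i, k) ∧ lst (i, k) ≠ (i, k) := by
  decide +kernel

set_option maxRecDepth 100000 in
theorem c4' : ∀ (i : Fin 5) (k : Fin 12) (j : Fin 5) (l : Fin 12), (j, l) ≠ (i, k) →
    posOf (i, k) (j, l) ≤ posOf (i, k) (lst (i, k)) := by
  decide +kernel

theorem c1 (a v : V) (h : v ≠ a) (h' : v ≠ src a) :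
    ∃ w, G.Adj v w ∧ w ≠ a ∧ posOf a w < posOf a v := by
  obtain ⟨t, h1, h2⟩ := c1' a.1 a.2 v.1 v.2 h h'
  exact ⟨nb v t, adj_nb v t, h1, h2⟩

theorem c2 (a v : V) (h : v ≠ a) (h' : v ≠ lst a) :
    ∃ w, G.Adj v w ∧ w ≠ a ∧ posOf a v < posOf a w := by
  obtain ⟨t, h1, h2⟩ := c2' a.1 a.2 v.1 v.2 h h'
  exact ⟨nb v t, adj_nb v t, h1, h2⟩

/-- reachability in the complement of `T` -/
def R (T : Finset V) (u v : V) : Prop :=
  ∃ (hu : u ∈ ((T : Set V)ᶜ)) (hv : v ∈ ((T : Set V)ᶜ)),
    (G.induce ((T : Set V)ᶜ)).Reachable ⟨u, hu⟩ ⟨v, hv⟩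

theorem R.refl {T : Finset V} {u : V} (h : u ∉ T) : R T u u :=
  ⟨by simpa using h, by simpa using h, SimpleGraph.Reachable.refl _⟩

theorem R.symm {T : Finset V} {u v : V} (h : R T u v) : R T v u := by
  obtain ⟨hu, hv, h⟩ := h
  exact ⟨hv, hu, h.symm⟩

theorem R.trans {T : Finset V} {u v w : V} (h : R T u v) (h' : R T v w) : R T u w := by
  obtain ⟨hu, hv, h⟩ := h
  obtain ⟨hv', hw, h'⟩ := h'
  exact ⟨hu, hw, h.trans h'⟩

theorem R.adj {T : Finset V} {u v : V} (hu : u ∉ T) (hv : v ∉ T) (h : G.Adj u v) : R T u v :=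
  ⟨by simpa using hu, by simpa using hv, SimpleGraph.Adj.reachable (by simpa using h)⟩

theorem down (a b : V) (hs : src a ≠ b) : ∀ (n : ℕ) (v : V), posOf a v = n →
    v ∉ ({a, b} : Finset V) → posOf a v ≤ posOf a b → R {a, b} v (src a) := by
  intro n
  induction n using Nat.strong_induction_on with
  | _ n ih =>
    intro v hn hv hle
    by_cases h : v = src a
    · subst h; exact R.refl hv
    · have hva : v ≠ a := fun e => hv (by simp [e])
      obtain ⟨w, hw1, hw2, hw3⟩ := c1 a v hva h
      have hwT : w ∉ ({a, b} : Finset V) := by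
        simp only [Finset.mem_insert, Finset.mem_singleton, not_or]
        exact ⟨hw2, fun e => by subst e; omega⟩
      exact (R.adj hv hwT hw1).trans (ih _ (by omega) w rfl hwT (by omega))

theorem up (a b : V) : ∀ (n : ℕ) (v : V), posOf a (lst a) - posOf a v = n →
    v ∉ ({a, b} : Finset V) → posOf a b < posOf a v → R {a, b} v (lst a) := by
  intro n
  induction n using Nat.strong_induction_on with
  | _ n ih =>
    intro v hn hv hlt
    by_cases h : v = lst a
    · subst h; exact R.refl hv
    · have hva : v ≠ a := fun e => hv (by simp [e])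
      obtain ⟨w, hw1, hw2, hw3⟩ := c2 a v hva h
      have hwT : w ∉ ({a, b} : Finset V) := by
        simp only [Finset.mem_insert, Finset.mem_singleton, not_or]
        exact ⟨hw2, fun e => by subst e; omega⟩
      have h4 := c4' a.1 a.2 w.1 w.2 hw2
      change posOf a w ≤ posOf a (lst a) at h4
      exact (R.adj hv hwT hw1).trans (ih _ (by omega) w rfl hwT (by omega))

theorem conn2 (a b u v : V) (_hab : a ≠ b) (hu : u ∉ ({a, b} : Finset V))
    (hv : v ∉ ({a, b} : Finset V)) : R {a, b} u v := by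
  obtain ⟨⟨t, ht⟩, h0, hsa, hla⟩ := c3' a.1 a.2
  change nb (src a) t = lst a at ht
  change posOf a (src a) = 0 at h0
  change src a ≠ a at hsa
  change lst a ≠ a at hla
  have hsl : G.Adj (src a) (lst a) := by rw [← ht]; exact adj_nb _ _
  have h4 : ∀ w, w ≠ a → posOf a w ≤ posOf a (lst a) := fun w hw => c4' a.1 a.2 w.1 w.2 hw
  have nota : ∀ w, w ∉ ({a, b} : Finset V) → w ≠ a ∧ w ≠ b := by
    intro w hw
    simpa using hw
  by_cases hs : src a = b
  · -- everything goes up
    have key : ∀ w, w ∉ ({a, b} : Finset V) → R {a, b} w (lst a) := by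
      intro w hw
      obtain ⟨hwa, hwb⟩ := nota w hw
      refine up a b _ w rfl hw ?_
      obtain ⟨w', -, -, h3⟩ := c1 a w hwa (by rw [hs]; exact hwb)
      rw [← hs, h0]
      omega
    exact (key u hu).trans (key v hv).symm
  · by_cases hl : lst a = b
    · have key : ∀ w, w ∉ ({a, b} : Finset V) → R {a, b} w (src a) := by
        intro w hw
        obtain ⟨hwa, hwb⟩ := nota w hw
        exact down a b hs _ w rfl hw (by rw [← hl]; exact h4 w hwa)
      exact (key u hu).trans (key v hv).symm
    · have hsT : src a ∉ ({a, b} : Finset V) := by simp [hsa, hs]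
      have hlT : lst a ∉ ({a, b} : Finset V) := by simp [hla, hl]
      have key : ∀ w, w ∉ ({a, b} : Finset V) → R {a, b} w (src a) := by
        intro w hw
        rcases Nat.lt_or_ge (posOf a b) (posOf a w) with h | h
        · exact (up a b _ w rfl hw h).trans (R.adj hsT hlT hsl).symm
        · exact down a b hs _ w rfl hw h
      exact (key u hu).trans (key v hv).symm

theorem three_connected (S : Finset V) (hS : S.card < 3) :
    (G.induce ((↑S : Set V)ᶜ)).Connected := by
  have hcard : Fintype.card V = 60 := by simp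
  have hne : Nonempty ↑((↑S : Set V)ᶜ) := by
    by_contra h
    rw [not_nonempty_iff] at h
    have : S = Finset.univ := by
      ext w
      simp only [Finset.mem_univ, iff_true]
      by_contra hw
      exact h.false ⟨w, by simpa using hw⟩
    rw [this, Finset.card_univ, hcard] at hS
    omega
  refine SimpleGraph.Connected.mk (fun u v => ?_)
  obtain ⟨u, hu⟩ := u
  obtain ⟨v, hv⟩ := v
  have hu' : u ∉ S := by simpa using hu
  have hv' : v ∉ S := by simpa using hv
  obtain ⟨T, hST, hT, hT2⟩ := Finset.exists_subsuperset_card_eq (s := S)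
    (t := Finset.univ \ {u, v}) (n := 2) (by
      intro w hw
      simp only [Finset.mem_sdiff, Finset.mem_univ, true_and, Finset.mem_insert,
        Finset.mem_singleton, not_or]
      exact ⟨fun e => hu' (e ▸ hw), fun e => hv' (e ▸ hw)⟩) (by omega) (by
      have h1 : ({u, v} : Finset V).card ≤ 2 := Finset.card_le_two
      have h2 := Finset.le_card_sdiff ({u, v} : Finset V) Finset.univ
      rw [Finset.card_univ, hcard] at h2
      omega)
  obtain ⟨a, b, hab, rfl⟩ := Finset.card_eq_two.1 hT2
  have hnot : ∀ w, (w = u ∨ w = v) → w ∉ ({a, b} : Finset V) := by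
    intro w hw hwT
    have := hT hwT
    simp only [Finset.mem_sdiff, Finset.mem_univ, true_and, Finset.mem_insert,
        Finset.mem_singleton, not_or] at this
    tauto
  obtain ⟨h1, h2, h3⟩ := conn2 a b u v hab (hnot u (Or.inl rfl)) (hnot v (Or.inr rfl))
  have hsub : ((({a, b} : Finset V) : Set V)ᶜ) ⊆ ((S : Set V)ᶜ) := by
    intro w hw
    simp only [Set.mem_compl_iff, Finset.mem_coe] at hw ⊢
    exact fun hwS => hw (hST hwS)
  exact h3.map (SimpleGraph.induceHomOfLE G hsub).toHom

end Pool.Agent.Lib.MP_ba3dea_co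
end

section

set_option autoImplicit false

namespace Pool.Agent.Lib.MP_ba3dea_co

theorem countP_eq_sum (P : Sym2 V → Prop) [DecidablePred P] (p : List (Sym2 V)) (hnd : p.Nodup)
    (hsub : ∀ e ∈ p, e ∈ Set.range E) :
    p.countP (fun e => decide (P e)) =
      ∑ j : J, if P (E j) then (if E j ∈ p then 1 else 0) else 0 := by
  induction p with
  | nil => simp
  | cons e p ih =>
    obtain ⟨j0, rfl⟩ := hsub e (by simp)
    rw [List.nodup_cons] at hnd
    rw [List.countP_cons, ih hnd.2 (fun e he => hsub e (List.mem_cons_of_mem _ he))]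
    have h1 : (if (decide (P (E j0))) = true then 1 else 0) =
        ∑ j : J, if j = j0 then (if P (E j0) then 1 else 0) else 0 := by
      rw [Finset.sum_ite_eq' Finset.univ j0]
      simp
    rw [h1, ← Finset.sum_add_distrib]
    refine Finset.sum_congr rfl (fun j _ => ?_)
    by_cases hj : j = j0
    · subst hj
      simp only [if_true, hnd.1, if_false, List.mem_cons, true_or]
      by_cases hP : P (E j) <;> simp [hP]
    · have : E j ≠ E j0 := fun h => hj (E_injective h)
      simp only [hj, if_false, add_zero, List.mem_cons, this, false_or]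

theorem sum_inc (v : V) (f : J → ℕ) :
    (∑ j : J, if v ∈ E j then f j else 0) = f (inc v 0) + f (inc v 1) + f (inc v 2) := by
  obtain ⟨n1, n2, n3⟩ := inc_ne' v.1 v.2
  change inc v 0 ≠ inc v 1 at n1
  change inc v 0 ≠ inc v 2 at n2
  change inc v 1 ≠ inc v 2 at n3
  have h : ∀ j : J, (if v ∈ E j then f j else 0) =
      (if j = inc v 0 then f (inc v 0) else 0) + (if j = inc v 1 then f (inc v 1) else 0) +
      (if j = inc v 2 then f (inc v 2) else 0) := by
    intro j
    by_cases h0 : j = inc v 0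
    · subst h0
      have : v ∈ E (inc v 0) := (mem_E v _).2 (Or.inl rfl)
      simp [this, n1, n2]
    · by_cases h1 : j = inc v 1
      · subst h1
        have : v ∈ E (inc v 1) := (mem_E v _).2 (Or.inr (Or.inl rfl))
        simp [this, n1.symm, n3]
      · by_cases h2 : j = inc v 2
        · subst h2
          have : v ∈ E (inc v 2) := (mem_E v _).2 (Or.inr (Or.inr rfl))
          simp [this, n2.symm, n3.symm]
        · have : ¬ v ∈ E j := by
            rw [mem_E]; tauto
          simp [this, h0, h1, h2]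
  rw [Finset.sum_congr rfl (fun j _ => h j), Finset.sum_add_distrib, Finset.sum_add_distrib,
    Finset.sum_ite_eq', Finset.sum_ite_eq', Finset.sum_ite_eq']
  simp

/-- indicator of an edge on a closed walk -/
def x (c : Σ u : V, G.Walk u u) (j : J) : ℕ := if E j ∈ c.2.edges then 1 else 0

theorem x_le (c : Σ u : V, G.Walk u u) (j : J) : x c j ≤ 1 := by
  unfold x; split <;> omega

theorem edges_sub (c : Σ u : V, G.Walk u u) : ∀ e ∈ c.2.edges, e ∈ Set.range E := by
  intro e he
  rw [← edgeSet_eq]
  exact c.2.edges_subset_edgeSet he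

theorem length_eq (c : Σ u : V, G.Walk u u) (hc : c.2.IsCycle) :
    c.2.length = ∑ j : J, x c j := by
  have h := countP_eq_sum (fun _ => True) c.2.edges hc.edges_nodup (edges_sub c)
  rw [← SimpleGraph.Walk.length_edges]
  simpa [x] using h

theorem parity (c : Σ u : V, G.Walk u u) (hc : c.2.IsCycle) (v : V) :
    x c (inc v 0) + x c (inc v 1) + x c (inc v 2) = 0 ∨
    x c (inc v 0) + x c (inc v 1) + x c (inc v 2) = 2 := by
  have h := countP_eq_sum (fun e => v ∈ e) c.2.edges hc.edges_nodup (edges_sub c)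
  have h2 : Even (c.2.edges.countP (fun e => decide (v ∈ e))) := by
    have := (SimpleGraph.Walk.IsTrail.even_countP_edges_iff hc.isTrail v).2
      (fun hne => absurd rfl hne)
    exact this
  rw [h, sum_inc v (fun j => if E j ∈ c.2.edges then 1 else 0)] at h2
  change Even (x c (inc v 0) + x c (inc v 1) + x c (inc v 2)) at h2
  have := x_le c (inc v 0)
  have := x_le c (inc v 1)
  have := x_le c (inc v 2)
  obtain ⟨k, hk⟩ := h2
  omega

end Pool.Agent.Lib.MP_ba3dea_co
end

section

set_option autoImplicit false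

namespace Pool.Agent.Lib.MP_ba3dea_co

theorem inc0 : ∀ i : Fin 5, inc (i, 0) 0 = (i, 3) ∧ inc (i, 0) 1 = (i, 0) ∧
    inc (i, 0) 2 = (i, 12) := by decide +kernel

theorem inc1 : ∀ i : Fin 5, inc (i, 1) 0 = (i, 4) ∧ inc (i, 1) 1 = (i, 1) ∧
    inc (i, 1) 2 = (i, 0) := by decide +kernel

theorem inc2 : ∀ i : Fin 5, inc (i, 2) 0 = (i, 5) ∧ inc (i, 2) 1 = (i, 2) ∧
    inc (i, 2) 2 = (i, 1) := by decide +kernel

theorem inc3 : ∀ i : Fin 5, inc (i, 3) 0 = (i, 6) ∧ inc (i, 3) 1 = (i, 13) ∧
    inc (i, 3) 2 = (i, 2) := by decide +kernel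

theorem inc4 : ∀ i : Fin 5, inc (i, 4) 0 = (i, 14) ∧ inc (i, 4) 1 = (i, 7) ∧
    inc (i, 4) 2 = (i, 11) := by decide +kernel

theorem inc5 : ∀ i : Fin 5, inc (i, 5) 0 = (i, 3) ∧ inc (i, 5) 1 = (i, 10) ∧
    inc (i, 5) 2 = (i, 9) := by decide +kernel

theorem inc6 : ∀ i : Fin 5, inc (i, 6) 0 = (i, 4) ∧ inc (i, 6) 1 = (i, 8) ∧
    inc (i, 6) 2 = (i, 7) := by decide +kernel

theorem inc7 : ∀ i : Fin 5, inc (i, 7) 0 = (i, 5) ∧ inc (i, 7) 1 = (i, 11) ∧
    inc (i, 7) 2 = (i, 10) := by decide +kernel

theorem inc8 : ∀ i : Fin 5, inc (i, 8) 0 = (i, 6) ∧ inc (i, 8) 1 = (i, 9) ∧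
    inc (i, 8) 2 = (i, 8) := by decide +kernel

theorem inc9 : ∀ i : Fin 5, inc (i, 9) 0 = (i, 12) ∧ inc (i, 9) 1 = (i, 15) ∧
    inc (i, 9) 2 = (i + 4, 16) := by decide +kernel

theorem inc10 : ∀ i : Fin 5, inc (i, 10) 0 = (i, 13) ∧ inc (i, 10) 1 = (i, 15) ∧
    inc (i, 10) 2 = (i, 16) := by decide +kernel

theorem inc11 : ∀ i : Fin 5, inc (i, 11) 0 = (i, 14) ∧ inc (i, 11) 1 = (i, 17) ∧
    inc (i, 11) 2 = (i + 3, 17) := by decide +kernel


theorem sum_ite_eq_countP {α : Type*} (F : List α) (p : α → Prop) [DecidablePred p] :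
    (F.map (fun c => if p c then 1 else 0)).sum = F.countP (fun c => decide (p c)) := by
  induction F with
  | nil => rfl
  | cons a F ih =>
    rw [List.map_cons, List.sum_cons, List.countP_cons, ih]
    by_cases h : p a <;> simp [h, add_comm]

theorem sum_x (F : List (Σ u : V, G.Walk u u)) (j : J) :
    ∑ c : Fin F.length, x F[c.1] j = F.countP (fun c => decide (E j ∈ c.2.edges)) := by
  rw [Fin.sum_univ_fun_getElem F (fun c => x c j)]
  exact sum_ite_eq_countP F (fun c => E j ∈ c.2.edges)

theorem restricted (F : List (Σ u : V, G.Walk u u)) (hcyc : ∀ c ∈ F, c.2.IsCycle)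
    (hcov : ∀ e ∈ G.edgeSet, ∃ c ∈ F, e ∈ c.2.edges)
    (hmult : ∀ e ∈ G.edgeSet, F.countP (fun c => decide (e ∈ c.2.edges)) ≤ 2) :
    123 ≤ (F.map (fun c => c.2.length)).sum := by
  have hF : ∀ c : Fin F.length, (F[c.1]).2.IsCycle := fun c => hcyc _ (List.getElem_mem _)
  have hE : ∀ j, E j ∈ G.edgeSet := fun j => by rw [edgeSet_eq]; exact ⟨j, rfl⟩
  have par : ∀ (v : V) (c : Fin F.length),
      x F[c.1] (inc v 0) + x F[c.1] (inc v 1) + x F[c.1] (inc v 2) = 0 ∨
      x F[c.1] (inc v 0) + x F[c.1] (inc v 1) + x F[c.1] (inc v 2) = 2 :=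
    fun v c => parity _ (hF c) v
  have key := lower_bound (ι := Fin F.length) (fun i k c => x F[c.1] (i, k))
    (fun i k c => x_le _ _)
    (fun i c => by have h := par (i, 0) c; rwa [(inc0 i).1, (inc0 i).2.1, (inc0 i).2.2] at h)
    (fun i c => by have h := par (i, 1) c; rwa [(inc1 i).1, (inc1 i).2.1, (inc1 i).2.2] at h)
    (fun i c => by have h := par (i, 2) c; rwa [(inc2 i).1, (inc2 i).2.1, (inc2 i).2.2] at h)
    (fun i c => by have h := par (i, 3) c; rwa [(inc3 i).1, (inc3 i).2.1, (inc3 i).2.2] at h)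
    (fun i c => by have h := par (i, 4) c; rwa [(inc4 i).1, (inc4 i).2.1, (inc4 i).2.2] at h)
    (fun i c => by have h := par (i, 5) c; rwa [(inc5 i).1, (inc5 i).2.1, (inc5 i).2.2] at h)
    (fun i c => by have h := par (i, 6) c; rwa [(inc6 i).1, (inc6 i).2.1, (inc6 i).2.2] at h)
    (fun i c => by have h := par (i, 7) c; rwa [(inc7 i).1, (inc7 i).2.1, (inc7 i).2.2] at h)
    (fun i c => by have h := par (i, 8) c; rwa [(inc8 i).1, (inc8 i).2.1, (inc8 i).2.2] at h)
    (fun i c => by have h := par (i, 9) c; rwa [(inc9 i).1, (inc9 i).2.1, (inc9 i).2.2] at h)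
    (fun i c => by have h := par (i, 10) c; rwa [(inc10 i).1, (inc10 i).2.1, (inc10 i).2.2] at h)
    (fun i c => by have h := par (i, 11) c; rwa [(inc11 i).1, (inc11 i).2.1, (inc11 i).2.2] at h)
    (fun i k => by
      have h1 := sum_x F (i, k)
      have h2 := hmult _ (hE (i, k))
      have h3 : 1 ≤ F.countP (fun c => decide (E (i, k) ∈ c.2.edges)) := by
        obtain ⟨c, hc, he⟩ := hcov _ (hE (i, k))
        rw [Nat.one_le_iff_ne_zero, ← Nat.pos_iff_ne_zero, List.countP_pos_iff]
        exact ⟨c, hc, by simpa using he⟩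
      change ∑ c : Fin F.length, x F[c.1] (i, k) = 1 ∨ ∑ c : Fin F.length, x F[c.1] (i, k) = 2
      omega)
  have h1 : (F.map (fun c => c.2.length)).sum = ∑ i, ∑ k, ∑ c : Fin F.length, x F[c.1] (i, k) := by
    rw [← Fin.sum_univ_fun_getElem F (fun c => c.2.length)]
    rw [Finset.sum_congr rfl (fun c _ => length_eq _ (hF c)), Finset.sum_comm,
      Fintype.sum_prod_type]
  rw [h1]
  exact key

end Pool.Agent.Lib.MP_ba3dea_co
end

section

set_option autoImplicit false

namespace Pool.Agent.Lib.MP_ba3dea_co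

def cycs : List (List ℕ) := [
  [5, 7, 2, 1, 6, 8],
  [17, 19, 14, 13, 18, 20],
  [35, 11, 4, 6, 1, 0, 9, 10, 21, 12, 17, 20, 15, 22, 33, 24, 25, 30, 28],
  [33, 34, 27, 32, 29, 24],
  [29, 31, 26, 25, 30, 32],
  [45, 46, 39, 44, 41, 36],
  [41, 43, 38, 37, 42, 44],
  [57, 46, 39, 38, 43, 40, 47, 11, 4, 7, 2, 3, 10, 21, 22, 15, 14, 19, 16, 23, 59, 52, 54, 49, 48],
  [57, 58, 51, 56, 53, 48],
  [58, 9, 0, 5, 8, 3, 10, 21, 12, 13, 18, 16, 23, 47, 40, 42, 37, 36, 45, 34, 27, 26, 31, 28, 35, 59, 52, 55, 50, 51],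
  [53, 55, 50, 49, 54, 56]]

def dec (n : ℕ) : V := (Fin.ofNat 5 (n / 12), Fin.ofNat 12 (n % 12))

def adjB (a b : V) : Bool := decide (nb a 0 = b) || decide (nb a 1 = b) || decide (nb a 2 = b)

theorem adjB_spec {a b : V} (h : adjB a b = true) : G.Adj a b := by
  simp only [adjB, Bool.or_eq_true, decide_eq_true_eq] at h
  rcases h with (h | h) | h <;> rw [← h] <;> exact adj_nb _ _

def lastOf : V → List V → V
  | u, [] => u
  | _, w :: l => lastOf w l

def edgesOf : V → List V → List (Sym2 V)
  | _, [] => []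
  | u, w :: l => s(u, w) :: edgesOf w l

def chainB : V → List V → Bool
  | _, [] => true
  | u, w :: l => adjB u w && chainB w l

theorem exists_walk : ∀ (l : List V) (u : V), chainB u l = true →
    ∃ (v : V) (p : G.Walk u v), v = lastOf u l ∧ p.support = u :: l ∧ p.edges = edgesOf u l ∧
      p.length = l.length := by
  intro l
  induction l with
  | nil => intro u _; exact ⟨u, SimpleGraph.Walk.nil, rfl, rfl, rfl, rfl⟩
  | cons w l ih =>
    intro u h
    simp only [chainB, Bool.and_eq_true] at h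
    obtain ⟨v, p, h0, h1, h2, h3⟩ := ih w h.2
    refine ⟨v, SimpleGraph.Walk.cons (adjB_spec h.1) p, h0, ?_, ?_, ?_⟩
    · rw [SimpleGraph.Walk.support_cons, h1]
    · rw [SimpleGraph.Walk.edges_cons, h2]; rfl
    · rw [SimpleGraph.Walk.length_cons, h3]; rfl

def cycEdges : List V → List (Sym2 V)
  | [] => []
  | u :: l => s(lastOf u l, u) :: edgesOf u l

def good : List V → Bool
  | [] => false
  | u :: l => chainB u l && adjB (lastOf u l) u && decide (u :: l).Nodup &&
      decide (s(lastOf u l, u) ∉ edgesOf u l)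

theorem exists_cycle (l : List V) (h : good l = true) : ∃ c : (Σ u : V, G.Walk u u),
    c.2.IsCycle ∧ c.2.length = l.length ∧ ∀ e ∈ cycEdges l, e ∈ c.2.edges := by
  cases l with
  | nil => simp [good] at h
  | cons u l =>
    simp only [good, Bool.and_eq_true, decide_eq_true_eq] at h
    obtain ⟨⟨⟨h1, h2⟩, h3⟩, h4⟩ := h
    obtain ⟨v, p, hv, q1, q2, q3⟩ := exists_walk l u h1
    rw [← hv] at h2 h4
    refine ⟨⟨v, SimpleGraph.Walk.cons (adjB_spec h2) p⟩, ?_, ?_, ?_⟩
    · rw [SimpleGraph.Walk.cons_isCycle_iff]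
      refine ⟨SimpleGraph.Walk.IsPath.mk' (by rw [q1]; exact h3), by rw [q2]; exact h4⟩
    · change (SimpleGraph.Walk.cons (adjB_spec h2) p).length = _
      rw [SimpleGraph.Walk.length_cons, q3]; rfl
    · intro e he
      change e ∈ (SimpleGraph.Walk.cons (adjB_spec h2) p).edges
      rw [SimpleGraph.Walk.edges_cons, q2]
      rw [cycEdges, ← hv] at he
      exact he

theorem exists_family : ∀ (L : List (List V)), (∀ l ∈ L, good l = true) →
    ∃ F : List (Σ u : V, G.Walk u u), (∀ c ∈ F, c.2.IsCycle) ∧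
      (F.map (fun c => c.2.length)).sum = (L.map List.length).sum ∧
      ∀ l ∈ L, ∀ e ∈ cycEdges l, ∃ c ∈ F, e ∈ c.2.edges := by
  intro L
  induction L with
  | nil => intro _; exact ⟨[], by simp, by simp, by simp⟩
  | cons l L ih =>
    intro h
    obtain ⟨F, h1, h2, h3⟩ := ih (fun l' hl' => h l' (List.mem_cons_of_mem _ hl'))
    obtain ⟨c, g1, g2, g3⟩ := exists_cycle l (h l (by simp))
    refine ⟨c :: F, ?_, ?_, ?_⟩
    · intro c' hc'
      rcases List.mem_cons.1 hc' with rfl | hc'
      · exact g1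
      · exact h1 _ hc'
    · simp only [List.map_cons, List.sum_cons]
      rw [g2, h2]
    · intro l' hl' e he
      rcases List.mem_cons.1 hl' with rfl | hl'
      · exact ⟨c, by simp, g3 e he⟩
      · obtain ⟨c', hc', he'⟩ := h3 l' hl' e he
        exact ⟨c', List.mem_cons_of_mem _ hc', he'⟩

def L0 : List (List V) := cycs.map (fun l => l.map dec)

set_option maxRecDepth 100000 in
theorem L0_good : ∀ l ∈ L0, good l = true := by
  decide +kernel

set_option maxRecDepth 100000 in
theorem L0_sum : (L0.map List.length).sum = 122 := by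
  decide +kernel

set_option maxRecDepth 100000 in
theorem L0_cover : ∀ (i : Fin 5) (k : Fin 18), ∃ l ∈ L0, E (i, k) ∈ cycEdges l := by
  decide +kernel

theorem exists_cover : ∃ F : List (Σ u : V, G.Walk u u), (∀ c ∈ F, c.2.IsCycle) ∧
      (F.map (fun c => c.2.length)).sum = 122 ∧
      ∀ e ∈ G.edgeSet, ∃ c ∈ F, e ∈ c.2.edges := by
  obtain ⟨F, h1, h2, h3⟩ := exists_family L0 L0_good
  refine ⟨F, h1, by rw [h2, L0_sum], ?_⟩
  intro e he
  rw [edgeSet_eq] at he
  obtain ⟨⟨i, k⟩, rfl⟩ := he
  obtain ⟨l, hl, hm⟩ := L0_cover i k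
  exact h3 l hl _ hm

end Pool.Agent.Lib.MP_ba3dea_co
end
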