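import Pool.Agent.Lib.MP_ba3dea_co.Lower

set_option autoImplicit false

namespace Pool.Agent.Lib.MP_ba3dea_co

/-- Vertices: block `i`, position `k`. Positions `0..8` are the vertices `1..9` of the Petersen
graph minus vertex `0`; `9,10` are the two triangle vertices; `11` is the inner vertex. -/
abbrev V := Fin 5 × Fin 12

/-- Edge labels. -/
abbrev J := Fin 5 × Fin 18

def endA (j : J) : V := (j.1, Fin.ofNat 12 ((3441772561645984350736 >>> (4 * j.2.val)) % 16))

def endB (j : J) : V := (j.1 + Fin.ofNat 5 ((608742554432415203328 >>> (4 * j.2.val)) % 16),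
  Fin.ofNat 12 ((3425017149932852106017 >>> (4 * j.2.val)) % 16))

def E (j : J) : Sym2 V := s(endA j, endB j)

/-- The 60-vertex cubic graph. -/
def G : SimpleGraph V := SimpleGraph.fromEdgeSet (Set.range E)

/-- The three edges at a vertex. -/
def inc (v : V) (t : Fin 3) : J :=
  (v.1 + Fin.ofNat 5 ((121695076591929665233820957278208 >>> (3 * (3 * v.2.val + t.val))) % 8),
   Fin.ofNat 18 ((840258917715558605946069252157991835035553284454756355 >>>
      (5 * (3 * v.2.val + t.val))) % 32))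

/-- The three neighbours of a vertex. -/
def nb (v : V) (t : Fin 3) : V :=
  (v.1 + Fin.ofNat 5 ((131915509556269764783388126871552 >>> (3 * (3 * v.2.val + t.val))) % 8),
   Fin.ofNat 12 ((16315034361358537400289933846122585160575253 >>>
      (4 * (3 * v.2.val + t.val))) % 16))

set_option maxRecDepth 100000 in
theorem inc_spec' : ∀ (i : Fin 5) (k : Fin 12) (j : Fin 5) (l : Fin 18),
    ((i, k) = endA (j, l) ∨ (i, k) = endB (j, l)) ↔
      ((j, l) = inc (i, k) 0 ∨ (j, l) = inc (i, k) 1 ∨ (j, l) = inc (i, k) 2) := by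
  decide +kernel

theorem mem_E (v : V) (j : J) : v ∈ E j ↔ (j = inc v 0 ∨ j = inc v 1 ∨ j = inc v 2) := by
  obtain ⟨i, k⟩ := v
  obtain ⟨a, l⟩ := j
  rw [E, Sym2.mem_iff]
  exact inc_spec' i k a l

set_option maxRecDepth 100000 in
theorem inc_ne' : ∀ (i : Fin 5) (k : Fin 12), inc (i, k) 0 ≠ inc (i, k) 1 ∧
    inc (i, k) 0 ≠ inc (i, k) 2 ∧ inc (i, k) 1 ≠ inc (i, k) 2 := by
  decide +kernel

set_option maxRecDepth 100000 in
theorem nb_spec' : ∀ (i : Fin 5) (k : Fin 12) (t : Fin 3),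
    ((endA (inc (i, k) t) = (i, k) ∧ endB (inc (i, k) t) = nb (i, k) t) ∨
    (endB (inc (i, k) t) = (i, k) ∧ endA (inc (i, k) t) = nb (i, k) t)) ∧ (i, k) ≠ nb (i, k) t := by
  decide +kernel

theorem E_inc (v : V) (t : Fin 3) : E (inc v t) = s(v, nb v t) := by
  obtain ⟨i, k⟩ := v
  rw [E]
  rcases (nb_spec' i k t).1 with ⟨h1, h2⟩ | ⟨h1, h2⟩
  · rw [h1, h2]
  · rw [h1, h2, Sym2.eq_swap]

theorem adj_nb (v : V) (t : Fin 3) : G.Adj v (nb v t) := by
  rw [G, SimpleGraph.fromEdgeSet_adj]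
  exact ⟨⟨inc v t, E_inc v t⟩, (nb_spec' v.1 v.2 t).2⟩

set_option maxRecDepth 100000 in
theorem noloop' : ∀ (j : Fin 5) (l : Fin 18), endA (j, l) ≠ endB (j, l) := by
  decide +kernel

theorem edgeSet_eq : G.edgeSet = Set.range E := by
  rw [G, SimpleGraph.edgeSet_fromEdgeSet]
  ext e
  simp only [Set.mem_sdiff, Set.mem_range, and_iff_left_iff_imp]
  rintro ⟨⟨j, l⟩, rfl⟩ hd
  exact noloop' j l (Sym2.mk_isDiag_iff.1 hd)

set_option maxRecDepth 100000 in
theorem inj' : ∀ (i : Fin 5) (k : Fin 18) (j : Fin 5) (l : Fin 18),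
    ((endA (i, k) = endA (j, l) ∧ endB (i, k) = endB (j, l)) ∨
     (endA (i, k) = endB (j, l) ∧ endB (i, k) = endA (j, l))) → ((i, k) : J) = (j, l) := by
  decide +kernel

theorem E_injective : Function.Injective E := by
  rintro ⟨i, k⟩ ⟨j, l⟩ h
  exact inj' i k j l (Sym2.eq_iff.1 h)

end Pool.Agent.Lib.MP_ba3dea_co
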