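import Mathlib

section

set_option autoImplicit false

namespace Pool.Agent.Lib.MP_ba3dea_co

/-- pointwise equality from equality of sums -/
theorem eq_of_sum_eq {ι : Type} [Fintype ι] (f g : ι → ℕ) (hle : ∀ c, g c ≤ f c)
    (hs : ∑ c, f c = ∑ c, g c) : ∀ c, f c = g c := by
  intro c
  have := (Finset.sum_eq_sum_iff_of_le (s := Finset.univ) (f := g) (g := f)
    (fun i _ => hle i)).1 hs.symm c (Finset.mem_univ c)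
  exact this.symm

/-- A node whose three multiplicities are `2,1,1`: every cycle uses the doubled edge iff it uses
exactly one of the other two. -/
theorem node_eq {ι : Type} [Fintype ι] (a b d : ι → ℕ)
    (ha : ∀ c, a c ≤ 1) (hb : ∀ c, b c ≤ 1) (hd : ∀ c, d c ≤ 1)
    (hp : ∀ c, a c + b c + d c = 0 ∨ a c + b c + d c = 2)
    (sa : ∑ c, a c = 2) (sb : ∑ c, b c = 1) (sd : ∑ c, d c = 1) :
    ∀ c, a c = b c + d c := by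
  intro c
  have h := eq_of_sum_eq (fun c => b c + d c) a (fun c => by
    have := hp c; have := ha c; have := hb c; have := hd c; show a c ≤ b c + d c; omega)
    (by rw [Finset.sum_add_distrib, sa, sb, sd]) c
  exact h.symm

/-- type I local check: all spokes doubled -/
theorem evenI (o0 o1 o2 o3 o4 s0 s1 s2 s3 s4 n0 n1 n2 n3 n4 : ℕ)
    (h0 : s0 ≤ 1) (h1 : s1 ≤ 1) (h2 : s2 ≤ 1) (h3 : s3 ≤ 1) (h4 : s4 ≤ 1)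
    (a0 : s0 = o4 + o0) (a1 : s1 = o0 + o1) (a2 : s2 = o1 + o2) (a3 : s3 = o2 + o3)
    (a4 : s4 = o3 + o4)
    (b0 : s0 = n0 + n3) (b1 : s1 = n1 + n4) (b2 : s2 = n2 + n0) (b3 : s3 = n3 + n1)
    (b4 : s4 = n4 + n2) : 2 ∣ o0 + o1 + o2 + o3 + o4 := by
  have e0 : o0 = 0 ∨ o0 = 1 := by omega
  have e1 : o1 = 0 ∨ o1 = 1 := by omega
  have e2 : o2 = 0 ∨ o2 = 1 := by omega
  have e3 : o3 = 0 ∨ o3 = 1 := by omega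
  have e4 : o4 = 0 ∨ o4 = 1 := by omega
  rcases e0 with rfl | rfl <;> rcases e1 with rfl | rfl <;> rcases e2 with rfl | rfl <;>
    rcases e3 with rfl | rfl <;> rcases e4 with rfl | rfl <;> omega

/-- type II local check: only spoke 0 doubled -/
theorem evenII (o0 o1 o2 o3 o4 s0 s1 s2 s3 s4 n0 n1 n2 n3 n4 : ℕ)
    (h0 : s0 ≤ 1) (h1 : o1 ≤ 1) (h2 : o3 ≤ 1) (h3 : n2 ≤ 1) (h4 : n1 ≤ 1)
    (a0 : s0 = o4 + o0) (a1 : o1 = o0 + s1) (a2 : o1 = s2 + o2) (a3 : o3 = o2 + s3)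
    (a4 : o3 = s4 + o4)
    (b0 : s0 = n0 + n3) (b1 : n1 = s1 + n4) (b2 : n2 = s2 + n0) (b3 : n1 = n3 + s3)
    (b4 : n2 = n4 + s4) : 2 ∣ o0 + s1 + n4 + s4 + o4 := by
  have e0 : o0 = 0 ∨ o0 = 1 := by omega
  have e1 : s1 = 0 ∨ s1 = 1 := by omega
  have e2 : n4 = 0 ∨ n4 = 1 := by omega
  have e3 : s4 = 0 ∨ s4 = 1 := by omega
  have e4 : o4 = 0 ∨ o4 = 1 := by omega
  rcases e0 with rfl | rfl <;> rcases e1 with rfl | rfl <;> rcases e2 with rfl | rfl <;>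
    rcases e3 with rfl | rfl <;> rcases e4 with rfl | rfl <;> omega


section

variable {ι : Type} [Fintype ι]

theorem sum_even (f : ι → ℕ) (h : ∀ c, f c = 0 ∨ f c = 2) : 2 ∣ ∑ c, f c :=
  Finset.dvd_sum (fun c _ => by rcases h c with h | h <;> rw [h] <;> decide)

theorem typeI (o s n : Fin 5 → ι → ℕ)
    (ho : ∀ i c, o i c ≤ 1) (hs : ∀ i c, s i c ≤ 1) (hn : ∀ i c, n i c ≤ 1)
    (hO : ∀ i c, s i c + o i c + o (i + 4) c = 0 ∨ s i c + o i c + o (i + 4) c = 2)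
    (hI : ∀ i c, s i c + n i c + n (i + 3) c = 0 ∨ s i c + n i c + n (i + 3) c = 2)
    (ms : ∀ i, ∑ c, s i c = 2) (mo : ∀ i, ∑ c, o i c = 1) (mn : ∀ i, ∑ c, n i c = 1) :
    False := by
  have A : ∀ i c, s i c = o i c + o (i + 4) c := fun i =>
    node_eq (s i) (o i) (o (i + 4)) (hs i) (ho i) (ho _) (hO i) (ms i) (mo i) (mo _)
  have B : ∀ i c, s i c = n i c + n (i + 3) c := fun i =>
    node_eq (s i) (n i) (n (i + 3)) (hs i) (hn i) (hn _) (hI i) (ms i) (mn i) (mn _)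
  have E : ∀ c, 2 ∣ o 0 c + o 1 c + o 2 c + o 3 c + o 4 c := by
    intro c
    have a0 : s 0 c = o 0 c + o 4 c := A 0 c
    have a1 : s 1 c = o 1 c + o 0 c := A 1 c
    have a2 : s 2 c = o 2 c + o 1 c := A 2 c
    have a3 : s 3 c = o 3 c + o 2 c := A 3 c
    have a4 : s 4 c = o 4 c + o 3 c := A 4 c
    have b0 : s 0 c = n 0 c + n 3 c := B 0 c
    have b1 : s 1 c = n 1 c + n 4 c := B 1 c
    have b2 : s 2 c = n 2 c + n 0 c := B 2 c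
    have b3 : s 3 c = n 3 c + n 1 c := B 3 c
    have b4 : s 4 c = n 4 c + n 2 c := B 4 c
    exact evenI (o 0 c) (o 1 c) (o 2 c) (o 3 c) (o 4 c) (s 0 c) (s 1 c) (s 2 c) (s 3 c) (s 4 c)
      (n 0 c) (n 1 c) (n 2 c) (n 3 c) (n 4 c) (hs 0 c) (hs 1 c) (hs 2 c) (hs 3 c) (hs 4 c)
      (by omega) (by omega) (by omega) (by omega) (by omega)
      b0 b1 b2 b3 b4
  have h2 : 2 ∣ ∑ c, (o 0 c + o 1 c + o 2 c + o 3 c + o 4 c) :=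
    Finset.dvd_sum (fun c _ => E c)
  rw [Finset.sum_add_distrib, Finset.sum_add_distrib, Finset.sum_add_distrib,
    Finset.sum_add_distrib, mo, mo, mo, mo, mo] at h2
  omega

theorem typeII0 (o s n : Fin 5 → ι → ℕ)
    (ho : ∀ i c, o i c ≤ 1) (hs : ∀ i c, s i c ≤ 1) (hn : ∀ i c, n i c ≤ 1)
    (hO : ∀ i c, s i c + o i c + o (i + 4) c = 0 ∨ s i c + o i c + o (i + 4) c = 2)
    (hI : ∀ i c, s i c + n i c + n (i + 3) c = 0 ∨ s i c + n i c + n (i + 3) c = 2)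
    (s0 : ∑ c, s 0 c = 2) (s1 : ∑ c, s 1 c = 1) (s2 : ∑ c, s 2 c = 1) (s3 : ∑ c, s 3 c = 1)
    (s4 : ∑ c, s 4 c = 1)
    (o0 : ∑ c, o 0 c = 1) (o1 : ∑ c, o 1 c = 2) (o2 : ∑ c, o 2 c = 1) (o3 : ∑ c, o 3 c = 2)
    (o4 : ∑ c, o 4 c = 1)
    (n0 : ∑ c, n 0 c = 1) (n1 : ∑ c, n 1 c = 2) (n2 : ∑ c, n 2 c = 2) (n3 : ∑ c, n 3 c = 1)
    (n4 : ∑ c, n 4 c = 1) : False := by
  have hO0 : ∀ c, s 0 c + o 0 c + o 4 c = 0 ∨ s 0 c + o 0 c + o 4 c = 2 := fun c => hO 0 c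
  have hO1 : ∀ c, s 1 c + o 1 c + o 0 c = 0 ∨ s 1 c + o 1 c + o 0 c = 2 := fun c => hO 1 c
  have hO2 : ∀ c, s 2 c + o 2 c + o 1 c = 0 ∨ s 2 c + o 2 c + o 1 c = 2 := fun c => hO 2 c
  have hO3 : ∀ c, s 3 c + o 3 c + o 2 c = 0 ∨ s 3 c + o 3 c + o 2 c = 2 := fun c => hO 3 c
  have hO4 : ∀ c, s 4 c + o 4 c + o 3 c = 0 ∨ s 4 c + o 4 c + o 3 c = 2 := fun c => hO 4 c
  have hI0 : ∀ c, s 0 c + n 0 c + n 3 c = 0 ∨ s 0 c + n 0 c + n 3 c = 2 := fun c => hI 0 c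
  have hI1 : ∀ c, s 1 c + n 1 c + n 4 c = 0 ∨ s 1 c + n 1 c + n 4 c = 2 := fun c => hI 1 c
  have hI2 : ∀ c, s 2 c + n 2 c + n 0 c = 0 ∨ s 2 c + n 2 c + n 0 c = 2 := fun c => hI 2 c
  have hI3 : ∀ c, s 3 c + n 3 c + n 1 c = 0 ∨ s 3 c + n 3 c + n 1 c = 2 := fun c => hI 3 c
  have hI4 : ∀ c, s 4 c + n 4 c + n 2 c = 0 ∨ s 4 c + n 4 c + n 2 c = 2 := fun c => hI 4 c
  have A0 := node_eq (s 0) (o 0) (o 4) (hs 0) (ho 0) (ho 4) hO0 s0 o0 o4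
  have A1 := node_eq (o 1) (s 1) (o 0) (ho 1) (hs 1) (ho 0)
    (fun c => by have := hO1 c; omega) o1 s1 o0
  have A2 := node_eq (o 1) (s 2) (o 2) (ho 1) (hs 2) (ho 2)
    (fun c => by have := hO2 c; omega) o1 s2 o2
  have A3 := node_eq (o 3) (s 3) (o 2) (ho 3) (hs 3) (ho 2)
    (fun c => by have := hO3 c; omega) o3 s3 o2
  have A4 := node_eq (o 3) (s 4) (o 4) (ho 3) (hs 4) (ho 4)
    (fun c => by have := hO4 c; omega) o3 s4 o4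
  have B0 := node_eq (s 0) (n 0) (n 3) (hs 0) (hn 0) (hn 3) hI0 s0 n0 n3
  have B1 := node_eq (n 1) (s 1) (n 4) (hn 1) (hs 1) (hn 4)
    (fun c => by have := hI1 c; omega) n1 s1 n4
  have B2 := node_eq (n 2) (s 2) (n 0) (hn 2) (hs 2) (hn 0)
    (fun c => by have := hI2 c; omega) n2 s2 n0
  have B3 := node_eq (n 1) (s 3) (n 3) (hn 1) (hs 3) (hn 3)
    (fun c => by have := hI3 c; omega) n1 s3 n3
  have B4 := node_eq (n 2) (s 4) (n 4) (hn 2) (hs 4) (hn 4)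
    (fun c => by have := hI4 c; omega) n2 s4 n4
  have E : ∀ c, 2 ∣ o 0 c + s 1 c + n 4 c + s 4 c + o 4 c := by
    intro c
    have a0 := A0 c
    have a1 := A1 c
    have a2 := A2 c
    have a3 := A3 c
    have a4 := A4 c
    have b0 := B0 c
    have b1 := B1 c
    have b2 := B2 c
    have b3 := B3 c
    have b4 := B4 c
    exact evenII (o 0 c) (o 1 c) (o 2 c) (o 3 c) (o 4 c) (s 0 c) (s 1 c) (s 2 c) (s 3 c) (s 4 c)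
      (n 0 c) (n 1 c) (n 2 c) (n 3 c) (n 4 c) (hs 0 c) (ho 1 c) (ho 3 c) (hn 2 c) (hn 1 c)
      (by omega) (by omega) (by omega) (by omega) (by omega)
      (by omega) (by omega) (by omega) (by omega) (by omega)
  have h2 : 2 ∣ ∑ c, (o 0 c + s 1 c + n 4 c + s 4 c + o 4 c) :=
    Finset.dvd_sum (fun c _ => E c)
  rw [Finset.sum_add_distrib, Finset.sum_add_distrib, Finset.sum_add_distrib,
    Finset.sum_add_distrib, o0, s1, n4, s4, o4] at h2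
  omega

theorem typeII (i : Fin 5) (o s n : Fin 5 → ι → ℕ)
    (ho : ∀ i c, o i c ≤ 1) (hs : ∀ i c, s i c ≤ 1) (hn : ∀ i c, n i c ≤ 1)
    (hO : ∀ i c, s i c + o i c + o (i + 4) c = 0 ∨ s i c + o i c + o (i + 4) c = 2)
    (hI : ∀ i c, s i c + n i c + n (i + 3) c = 0 ∨ s i c + n i c + n (i + 3) c = 2)
    (s0 : ∑ c, s i c = 2) (s1 : ∑ c, s (i + 1) c = 1) (s2 : ∑ c, s (i + 2) c = 1)
    (s3 : ∑ c, s (i + 3) c = 1) (s4 : ∑ c, s (i + 4) c = 1)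
    (o0 : ∑ c, o i c = 1) (o1 : ∑ c, o (i + 1) c = 2) (o2 : ∑ c, o (i + 2) c = 1)
    (o3 : ∑ c, o (i + 3) c = 2) (o4 : ∑ c, o (i + 4) c = 1)
    (n0 : ∑ c, n i c = 1) (n1 : ∑ c, n (i + 1) c = 2) (n2 : ∑ c, n (i + 2) c = 2)
    (n3 : ∑ c, n (i + 3) c = 1) (n4 : ∑ c, n (i + 4) c = 1) : False := by
  refine typeII0 (fun k => o (i + k)) (fun k => s (i + k)) (fun k => n (i + k))
    (fun k c => ho _ c) (fun k c => hs _ c) (fun k c => hn _ c)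
    (fun k c => ?_) (fun k c => ?_) ?_ s1 s2 s3 s4 ?_ o1 o2 o3 o4 ?_ n1 n2 n3 n4
  · have := hO (i + k) c
    rwa [add_assoc i k 4] at this
  · have := hI (i + k) c
    rwa [add_assoc i k 3] at this
  · simpa using s0
  · simpa using o0
  · simpa using n0

theorem numKey (s0 s1 s2 s3 s4 o0 o1 o2 o3 o4 n0 n1 n2 n3 n4 : ℕ)
    (a0 : s0 + o0 + o4 = 4) (a1 : s1 + o1 + o0 = 4) (a2 : s2 + o2 + o1 = 4)
    (a3 : s3 + o3 + o2 = 4) (a4 : s4 + o4 + o3 = 4)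
    (b0 : s0 + n0 + n3 = 4) (b1 : s1 + n1 + n4 = 4) (b2 : s2 + n2 + n0 = 4)
    (b3 : s3 + n3 + n1 = 4) (b4 : s4 + n4 + n2 = 4)
    (e0 : s0 = 1 ∨ s0 = 2) (e1 : s1 = 1 ∨ s1 = 2) (e2 : s2 = 1 ∨ s2 = 2)
    (e3 : s3 = 1 ∨ s3 = 2) (e4 : s4 = 1 ∨ s4 = 2)
    (f0 : 1 ≤ o0 ∧ o0 ≤ 2) (f1 : 1 ≤ o1 ∧ o1 ≤ 2) (f2 : 1 ≤ o2 ∧ o2 ≤ 2)
    (f3 : 1 ≤ o3 ∧ o3 ≤ 2) (f4 : 1 ≤ o4 ∧ o4 ≤ 2)
    (g0 : 1 ≤ n0 ∧ n0 ≤ 2) (g1 : 1 ≤ n1 ∧ n1 ≤ 2) (g2 : 1 ≤ n2 ∧ n2 ≤ 2)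
    (g3 : 1 ≤ n3 ∧ n3 ≤ 2) (g4 : 1 ≤ n4 ∧ n4 ≤ 2) :
    (s0 = 2 ∧ s1 = 2 ∧ s2 = 2 ∧ s3 = 2 ∧ s4 = 2) ∨
    (s0 = 2 ∧ s1 = 1 ∧ s2 = 1 ∧ s3 = 1 ∧ s4 = 1) ∨
    (s0 = 1 ∧ s1 = 2 ∧ s2 = 1 ∧ s3 = 1 ∧ s4 = 1) ∨
    (s0 = 1 ∧ s1 = 1 ∧ s2 = 2 ∧ s3 = 1 ∧ s4 = 1) ∨
    (s0 = 1 ∧ s1 = 1 ∧ s2 = 1 ∧ s3 = 2 ∧ s4 = 1) ∨
    (s0 = 1 ∧ s1 = 1 ∧ s2 = 1 ∧ s3 = 1 ∧ s4 = 2) := by
  rcases e0 with rfl | rfl <;> rcases e1 with rfl | rfl <;> rcases e2 with rfl | rfl <;>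
    rcases e3 with rfl | rfl <;> rcases e4 with rfl | rfl <;>
    first
    | (exfalso; clear b0 b1 b2 b3 b4 g0 g1 g2 g3 g4; omega)
    | (exfalso; clear a0 a1 a2 a3 a4 f0 f1 f2 f3 f4; omega)
    | simp

/-- **Petersen lemma.** A `{1,2}`-valued weighting of the Petersen graph that is a sum of
even 0-1 vectors has a node all of whose edges have weight `2`. -/
theorem petersen_defect (o s n : Fin 5 → ι → ℕ)
    (ho : ∀ i c, o i c ≤ 1) (hs : ∀ i c, s i c ≤ 1) (hn : ∀ i c, n i c ≤ 1)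
    (hO : ∀ i c, s i c + o i c + o (i + 4) c = 0 ∨ s i c + o i c + o (i + 4) c = 2)
    (hI : ∀ i c, s i c + n i c + n (i + 3) c = 0 ∨ s i c + n i c + n (i + 3) c = 2)
    (mo : ∀ i, ∑ c, o i c = 1 ∨ ∑ c, o i c = 2) (ms : ∀ i, ∑ c, s i c = 1 ∨ ∑ c, s i c = 2)
    (mn : ∀ i, ∑ c, n i c = 1 ∨ ∑ c, n i c = 2)
    (nO : ∀ i, ¬ (∑ c, s i c = 2 ∧ ∑ c, o i c = 2 ∧ ∑ c, o (i + 4) c = 2))
    (nI : ∀ i, ¬ (∑ c, s i c = 2 ∧ ∑ c, n i c = 2 ∧ ∑ c, n (i + 3) c = 2)) : False := by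
  have sumO : ∀ i, ∑ c, s i c + ∑ c, o i c + ∑ c, o (i + 4) c = 4 := by
    intro i
    have h1 : 2 ∣ ∑ c, s i c + ∑ c, o i c + ∑ c, o (i + 4) c := by
      rw [← Finset.sum_add_distrib, ← Finset.sum_add_distrib]
      exact sum_even _ (hO i)
    have := mo i; have := mo (i + 4); have := ms i; have := nO i
    omega
  have sumI : ∀ i, ∑ c, s i c + ∑ c, n i c + ∑ c, n (i + 3) c = 4 := by
    intro i
    have h1 : 2 ∣ ∑ c, s i c + ∑ c, n i c + ∑ c, n (i + 3) c := by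
      rw [← Finset.sum_add_distrib, ← Finset.sum_add_distrib]
      exact sum_even _ (hI i)
    have := mn i; have := mn (i + 3); have := ms i; have := nI i
    omega
  have O : ∀ i, 1 ≤ ∑ c, o i c ∧ ∑ c, o i c ≤ 2 := fun i => by
    rcases mo i with h | h <;> omega
  have N : ∀ i, 1 ≤ ∑ c, n i c ∧ ∑ c, n i c ≤ 2 := fun i => by
    rcases mn i with h | h <;> omega
  have a0 : ∑ c, s 0 c + ∑ c, o 0 c + ∑ c, o 4 c = 4 := sumO 0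
  have a1 : ∑ c, s 1 c + ∑ c, o 1 c + ∑ c, o 0 c = 4 := sumO 1
  have a2 : ∑ c, s 2 c + ∑ c, o 2 c + ∑ c, o 1 c = 4 := sumO 2
  have a3 : ∑ c, s 3 c + ∑ c, o 3 c + ∑ c, o 2 c = 4 := sumO 3
  have a4 : ∑ c, s 4 c + ∑ c, o 4 c + ∑ c, o 3 c = 4 := sumO 4
  have b0 : ∑ c, s 0 c + ∑ c, n 0 c + ∑ c, n 3 c = 4 := sumI 0
  have b1 : ∑ c, s 1 c + ∑ c, n 1 c + ∑ c, n 4 c = 4 := sumI 1
  have b2 : ∑ c, s 2 c + ∑ c, n 2 c + ∑ c, n 0 c = 4 := sumI 2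
  have b3 : ∑ c, s 3 c + ∑ c, n 3 c + ∑ c, n 1 c = 4 := sumI 3
  have b4 : ∑ c, s 4 c + ∑ c, n 4 c + ∑ c, n 2 c = 4 := sumI 4
  have k0 := numKey _ _ _ _ _ _ _ _ _ _ _ _ _ _ _ a0 a1 a2 a3 a4
    b0 b1 b2 b3 b4 (ms 0) (ms 1) (ms 2) (ms 3) (ms 4)
    (O 0) (O 1) (O 2) (O 3) (O 4) (N 0) (N 1) (N 2) (N 3) (N 4)
  rcases k0 with
    ⟨s0, s1, s2, s3, s4⟩ | ⟨s0, s1, s2, s3, s4⟩ | ⟨s0, s1, s2, s3, s4⟩ |
    ⟨s0, s1, s2, s3, s4⟩ | ⟨s0, s1, s2, s3, s4⟩ | ⟨s0, s1, s2, s3, s4⟩ <;>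
  rw [s0] at a0 b0 <;> rw [s1] at a1 b1 <;> rw [s2] at a2 b2 <;> rw [s3] at a3 b3 <;>
  rw [s4] at a4 b4
  · refine typeI o s n ho hs hn hO hI (fun i => ?_) (fun i => ?_) (fun i => ?_)
    · fin_cases i <;> assumption
    · have := O i
      fin_cases i <;> simp only [Fin.zero_eta, Fin.mk_one, Fin.reduceFinMk] at this ⊢ <;> omega
    · have := N i
      fin_cases i <;> simp only [Fin.zero_eta, Fin.mk_one, Fin.reduceFinMk] at this ⊢ <;> omega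
  · exact typeII 0 o s n ho hs hn hO hI s0 s1 s2 s3 s4
      (by omega) (by show ∑ c, o 1 c = 2; omega) (by show ∑ c, o 2 c = 1; omega)
      (by show ∑ c, o 3 c = 2; omega) (by show ∑ c, o 4 c = 1; omega)
      (by omega) (by show ∑ c, n 1 c = 2; omega) (by show ∑ c, n 2 c = 2; omega)
      (by show ∑ c, n 3 c = 1; omega) (by show ∑ c, n 4 c = 1; omega)
  · exact typeII 1 o s n ho hs hn hO hI s1 s2 s3 s4 s0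
      (by omega) (by show ∑ c, o 2 c = 2; omega) (by show ∑ c, o 3 c = 1; omega)
      (by show ∑ c, o 4 c = 2; omega) (by show ∑ c, o 0 c = 1; omega)
      (by omega) (by show ∑ c, n 2 c = 2; omega) (by show ∑ c, n 3 c = 2; omega)
      (by show ∑ c, n 4 c = 1; omega) (by show ∑ c, n 0 c = 1; omega)
  · exact typeII 2 o s n ho hs hn hO hI s2 s3 s4 s0 s1
      (by omega) (by show ∑ c, o 3 c = 2; omega) (by show ∑ c, o 4 c = 1; omega)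
      (by show ∑ c, o 0 c = 2; omega) (by show ∑ c, o 1 c = 1; omega)
      (by omega) (by show ∑ c, n 3 c = 2; omega) (by show ∑ c, n 4 c = 2; omega)
      (by show ∑ c, n 0 c = 1; omega) (by show ∑ c, n 1 c = 1; omega)
  · exact typeII 3 o s n ho hs hn hO hI s3 s4 s0 s1 s2
      (by omega) (by show ∑ c, o 4 c = 2; omega) (by show ∑ c, o 0 c = 1; omega)
      (by show ∑ c, o 1 c = 2; omega) (by show ∑ c, o 2 c = 1; omega)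
      (by omega) (by show ∑ c, n 4 c = 2; omega) (by show ∑ c, n 0 c = 2; omega)
      (by show ∑ c, n 1 c = 1; omega) (by show ∑ c, n 2 c = 1; omega)
  · exact typeII 4 o s n ho hs hn hO hI s4 s0 s1 s2 s3
      (by omega) (by show ∑ c, o 0 c = 2; omega) (by show ∑ c, o 1 c = 1; omega)
      (by show ∑ c, o 2 c = 2; omega) (by show ∑ c, o 3 c = 1; omega)
      (by omega) (by show ∑ c, n 0 c = 2; omega) (by show ∑ c, n 1 c = 2; omega)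
      (by show ∑ c, n 2 c = 1; omega) (by show ∑ c, n 3 c = 1; omega)

end

end Pool.Agent.Lib.MP_ba3dea_co
end

section

set_option autoImplicit false

namespace Pool.Agent.Lib.MP_ba3dea_co

section

variable {ι : Type} [Fintype ι]

theorem root_aux (e0 e1 e2 e3 e4 e5 e6 e7 e8 e9 e10 e11 e12 e13 e14 : ℕ)
    (l12 : e12 ≤ 1) (l13 : e13 ≤ 1) (l14 : e14 ≤ 1)
    (v1 : 2 ∣ e3 + e0 + e12) (v2 : 2 ∣ e4 + e1 + e0) (v3 : 2 ∣ e5 + e2 + e1)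
    (v4 : 2 ∣ e6 + e13 + e2) (v5 : 2 ∣ e14 + e7 + e11) (v6 : 2 ∣ e3 + e10 + e9)
    (v7 : 2 ∣ e4 + e8 + e7) (v8 : 2 ∣ e5 + e11 + e10) (v9 : 2 ∣ e6 + e9 + e8) :
    e14 + e12 + e13 = 0 ∨ e14 + e12 + e13 = 2 := by
  have h : 2 ∣ e14 + e12 + e13 := by
    obtain ⟨k1, h1⟩ := v1
    obtain ⟨k2, h2⟩ := v2
    obtain ⟨k3, h3⟩ := v3
    obtain ⟨k4, h4⟩ := v4
    obtain ⟨k5, h5⟩ := v5
    obtain ⟨k6, h6⟩ := v6
    obtain ⟨k7, h7⟩ := v7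
    obtain ⟨k8, h8⟩ := v8
    obtain ⟨k9, h9⟩ := v9
    have h10 : e14 + e12 + e13 + 2 * (e0 + e1 + e2 + e3 + e4 + e5 + e6 + e7 + e8 + e9 + e10 + e11)
        = 2 * (k1 + k2 + k3 + k4 + k5 + k6 + k7 + k8 + k9) := by linarith
    clear h1 h2 h3 h4 h5 h6 h7 h8 h9
    omega
  clear v1 v2 v3 v4 v5 v6 v7 v8 v9
  omega

theorem dvd_of_or (a : ℕ) (h : a = 0 ∨ a = 2) : 2 ∣ a := by
  rcases h with h | h <;> rw [h]; exact dvd_zero 2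

theorem rim_aux (e12 e13 e14 e15 e16 f16 : ℕ)
    (l14 : e14 ≤ 1) (l16 : e16 ≤ 1) (k16 : f16 ≤ 1)
    (h : e14 + e12 + e13 = 0 ∨ e14 + e12 + e13 = 2)
    (h' : e12 + e15 + f16 = 0 ∨ e12 + e15 + f16 = 2)
    (h'' : e13 + e15 + e16 = 0 ∨ e13 + e15 + e16 = 2) :
    e14 + e16 + f16 = 0 ∨ e14 + e16 + f16 = 2 := by
  rcases h with h | h <;> rcases h' with h' | h' <;> rcases h'' with h'' | h'' <;> omega

theorem par_sum {ι : Type} [Fintype ι] (a b d : ι → ℕ)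
    (h : ∀ c, a c + b c + d c = 0 ∨ a c + b c + d c = 2)
    (ha : ∑ c, a c = 1 ∨ ∑ c, a c = 2) (hb : ∑ c, b c = 1 ∨ ∑ c, b c = 2)
    (hd : ∑ c, d c = 1 ∨ ∑ c, d c = 2) :
    ∃ t : ℕ, ∑ c, a c + ∑ c, b c + ∑ c, d c = 4 + 2 * t := by
  have h1 : 2 ∣ ∑ c, a c + ∑ c, b c + ∑ c, d c := by
    rw [← Finset.sum_add_distrib, ← Finset.sum_add_distrib]
    exact sum_even _ h
  obtain ⟨k, hk⟩ := h1
  exact ⟨k - 2, by omega⟩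

theorem not_all_two (a b d : ℕ) (h : a + b + d = 4 + 2 * 0) : ¬ (a = 2 ∧ b = 2 ∧ d = 2) := by
  rintro ⟨rfl, rfl, rfl⟩
  omega

/-- one block: nodes of the Petersen-minus-a-vertex gadget and the two triangle vertices -/
theorem block (e0 e1 e2 e3 e4 e5 e6 e7 e8 e9 e10 e11 e12 e13 e14 e15 e16 f16 : ι → ℕ)
    (l0 : ∀ c, e0 c ≤ 1) (l1 : ∀ c, e1 c ≤ 1) (l2 : ∀ c, e2 c ≤ 1) (l3 : ∀ c, e3 c ≤ 1)
    (l4 : ∀ c, e4 c ≤ 1) (l5 : ∀ c, e5 c ≤ 1) (l6 : ∀ c, e6 c ≤ 1) (l7 : ∀ c, e7 c ≤ 1)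
    (l8 : ∀ c, e8 c ≤ 1) (l9 : ∀ c, e9 c ≤ 1) (l10 : ∀ c, e10 c ≤ 1) (l11 : ∀ c, e11 c ≤ 1)
    (l12 : ∀ c, e12 c ≤ 1) (l13 : ∀ c, e13 c ≤ 1) (l14 : ∀ c, e14 c ≤ 1)
    (l16 : ∀ c, e16 c ≤ 1) (k16 : ∀ c, f16 c ≤ 1)
    (v1 : ∀ c, e3 c + e0 c + e12 c = 0 ∨ e3 c + e0 c + e12 c = 2)
    (v2 : ∀ c, e4 c + e1 c + e0 c = 0 ∨ e4 c + e1 c + e0 c = 2)
    (v3 : ∀ c, e5 c + e2 c + e1 c = 0 ∨ e5 c + e2 c + e1 c = 2)
    (v4 : ∀ c, e6 c + e13 c + e2 c = 0 ∨ e6 c + e13 c + e2 c = 2)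
    (v5 : ∀ c, e14 c + e7 c + e11 c = 0 ∨ e14 c + e7 c + e11 c = 2)
    (v6 : ∀ c, e3 c + e10 c + e9 c = 0 ∨ e3 c + e10 c + e9 c = 2)
    (v7 : ∀ c, e4 c + e8 c + e7 c = 0 ∨ e4 c + e8 c + e7 c = 2)
    (v8 : ∀ c, e5 c + e11 c + e10 c = 0 ∨ e5 c + e11 c + e10 c = 2)
    (v9 : ∀ c, e6 c + e9 c + e8 c = 0 ∨ e6 c + e9 c + e8 c = 2)
    (vx : ∀ c, e12 c + e15 c + f16 c = 0 ∨ e12 c + e15 c + f16 c = 2)
    (vy : ∀ c, e13 c + e15 c + e16 c = 0 ∨ e13 c + e15 c + e16 c = 2)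
    (m0 : ∑ c, e0 c = 1 ∨ ∑ c, e0 c = 2) (m1 : ∑ c, e1 c = 1 ∨ ∑ c, e1 c = 2)
    (m2 : ∑ c, e2 c = 1 ∨ ∑ c, e2 c = 2) (m3 : ∑ c, e3 c = 1 ∨ ∑ c, e3 c = 2)
    (m4 : ∑ c, e4 c = 1 ∨ ∑ c, e4 c = 2) (m5 : ∑ c, e5 c = 1 ∨ ∑ c, e5 c = 2)
    (m6 : ∑ c, e6 c = 1 ∨ ∑ c, e6 c = 2) (m7 : ∑ c, e7 c = 1 ∨ ∑ c, e7 c = 2)
    (m8 : ∑ c, e8 c = 1 ∨ ∑ c, e8 c = 2) (m9 : ∑ c, e9 c = 1 ∨ ∑ c, e9 c = 2)
    (m10 : ∑ c, e10 c = 1 ∨ ∑ c, e10 c = 2) (m11 : ∑ c, e11 c = 1 ∨ ∑ c, e11 c = 2)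
    (m12 : ∑ c, e12 c = 1 ∨ ∑ c, e12 c = 2) (m13 : ∑ c, e13 c = 1 ∨ ∑ c, e13 c = 2)
    (m14 : ∑ c, e14 c = 1 ∨ ∑ c, e14 c = 2) (m15 : ∑ c, e15 c = 1 ∨ ∑ c, e15 c = 2)
    (m16 : ∑ c, e16 c = 1 ∨ ∑ c, e16 c = 2) (p16 : ∑ c, f16 c = 1 ∨ ∑ c, f16 c = 2) :
    (∀ c, e14 c + e16 c + f16 c = 0 ∨ e14 c + e16 c + f16 c = 2) ∧
    ∃ T : ℕ, 2 * (∑ c, e0 c + ∑ c, e1 c + ∑ c, e2 c + ∑ c, e3 c + ∑ c, e4 c + ∑ c, e5 c +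
        ∑ c, e6 c + ∑ c, e7 c + ∑ c, e8 c + ∑ c, e9 c + ∑ c, e10 c + ∑ c, e11 c +
        ∑ c, e12 c + ∑ c, e13 c + ∑ c, e15 c) + ∑ c, e14 c + ∑ c, e16 c + ∑ c, f16 c
        = 44 + 2 * T ∧
      (T = 0 → ∑ c, e16 c = 1 ∧ ∑ c, f16 c = 1 ∧ ∑ c, e14 c = 2) := by
  have root : ∀ c, e14 c + e12 c + e13 c = 0 ∨ e14 c + e12 c + e13 c = 2 := fun c =>
    root_aux (e0 c) (e1 c) (e2 c) (e3 c) (e4 c) (e5 c) (e6 c) (e7 c) (e8 c) (e9 c) (e10 c) (e11 c)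
      (e12 c) (e13 c) (e14 c) (l12 c) (l13 c) (l14 c) (dvd_of_or _ (v1 c)) (dvd_of_or _ (v2 c))
      (dvd_of_or _ (v3 c)) (dvd_of_or _ (v4 c)) (dvd_of_or _ (v5 c)) (dvd_of_or _ (v6 c))
      (dvd_of_or _ (v7 c)) (dvd_of_or _ (v8 c)) (dvd_of_or _ (v9 c))
  have rim : ∀ c, e14 c + e16 c + f16 c = 0 ∨ e14 c + e16 c + f16 c = 2 := fun c =>
    rim_aux (e12 c) (e13 c) (e14 c) (e15 c) (e16 c) (f16 c) (l14 c) (l16 c) (k16 c) (root c)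
      (vx c) (vy c)
  refine ⟨rim, ?_⟩
  obtain ⟨t1, h1⟩ := par_sum _ _ _ v1 m3 m0 m12
  obtain ⟨t2, h2⟩ := par_sum _ _ _ v2 m4 m1 m0
  obtain ⟨t3, h3⟩ := par_sum _ _ _ v3 m5 m2 m1
  obtain ⟨t4, h4⟩ := par_sum _ _ _ v4 m6 m13 m2
  obtain ⟨t5, h5⟩ := par_sum _ _ _ v5 m14 m7 m11
  obtain ⟨t6, h6⟩ := par_sum _ _ _ v6 m3 m10 m9
  obtain ⟨t7, h7⟩ := par_sum _ _ _ v7 m4 m8 m7
  obtain ⟨t8, h8⟩ := par_sum _ _ _ v8 m5 m11 m10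
  obtain ⟨t9, h9⟩ := par_sum _ _ _ v9 m6 m9 m8
  obtain ⟨tx, hx⟩ := par_sum _ _ _ vx m12 m15 p16
  obtain ⟨ty, hy⟩ := par_sum _ _ _ vy m13 m15 m16
  refine ⟨t1 + t2 + t3 + t4 + t5 + t6 + t7 + t8 + t9 + tx + ty, by linarith, ?_⟩
  intro hT
  obtain ⟨z1, z2, z3, z4, z5, z6, z7, z8, z9, zx, zy⟩ : t1 = 0 ∧ t2 = 0 ∧ t3 = 0 ∧ t4 = 0 ∧
      t5 = 0 ∧ t6 = 0 ∧ t7 = 0 ∧ t8 = 0 ∧ t9 = 0 ∧ tx = 0 ∧ ty = 0 := by
    clear h1 h2 h3 h4 h5 h6 h7 h8 h9 hx hy m0 m1 m2 m3 m4 m5 m6 m7 m8 m9 m10 m11 m12 m13 m14 m15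
      m16 p16
    omega
  subst z1 z2 z3 z4 z5 z6 z7 z8 z9 zx zy
  have key : ∑ c, e14 c = 2 ∧ ∑ c, e12 c = 2 ∧ ∑ c, e13 c = 2 := by
    by_contra hcon
    refine petersen_defect ![e12, e0, e1, e2, e13] ![e14, e3, e4, e5, e6] ![e7, e10, e8, e11, e9]
      ?_ ?_ ?_ ?_ ?_ ?_ ?_ ?_ ?_ ?_
    · intro i; fin_cases i <;> assumption
    · intro i; fin_cases i <;> assumption
    · intro i; fin_cases i <;> assumption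
    · intro i; fin_cases i
      · exact root
      · exact v1
      · exact v2
      · exact v3
      · exact v4
    · intro i; fin_cases i
      · exact v5
      · exact v6
      · exact v7
      · exact v8
      · exact v9
    · intro i; fin_cases i <;> assumption
    · intro i; fin_cases i <;> assumption
    · intro i; fin_cases i <;> assumption
    · intro i; fin_cases i
      · exact hcon
      · exact not_all_two _ _ _ h1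
      · exact not_all_two _ _ _ h2
      · exact not_all_two _ _ _ h3
      · exact not_all_two _ _ _ h4
    · intro i; fin_cases i
      · exact not_all_two _ _ _ h5
      · exact not_all_two _ _ _ h6
      · exact not_all_two _ _ _ h7
      · exact not_all_two _ _ _ h8
      · exact not_all_two _ _ _ h9
  obtain ⟨q1, q2, q3⟩ := key
  clear h1 h2 h3 h4 h5 h6 h7 h8 h9 m0 m1 m2 m3 m4 m5 m6 m7 m8 m9 m10 m11 m12 m13 m14 hT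
  refine ⟨?_, ?_, q1⟩
  · omega
  · omega

end

end Pool.Agent.Lib.MP_ba3dea_co
end

section

set_option autoImplicit false

namespace Pool.Agent.Lib.MP_ba3dea_co

/-- numerical endgame -/
theorem endgame (r0 r1 r2 r3 r4 s0 s1 s2 s3 s4 n0 n1 n2 n3 n4 T0 T1 T2 T3 T4
    z0 z1 z2 z3 z4 : ℕ)
    (br0 : r0 = 1 ∨ r0 = 2) (br1 : r1 = 1 ∨ r1 = 2) (br2 : r2 = 1 ∨ r2 = 2)
    (br3 : r3 = 1 ∨ r3 = 2) (br4 : r4 = 1 ∨ r4 = 2)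
    (bs0 : 1 ≤ s0 ∧ s0 ≤ 2) (bs1 : 1 ≤ s1 ∧ s1 ≤ 2) (bs2 : 1 ≤ s2 ∧ s2 ≤ 2)
    (bs3 : 1 ≤ s3 ∧ s3 ≤ 2) (bs4 : 1 ≤ s4 ∧ s4 ≤ 2)
    (bn0 : n0 = 1 ∨ n0 = 2) (bn1 : 1 ≤ n1 ∧ n1 ≤ 2) (bn2 : 1 ≤ n2 ∧ n2 ≤ 2)
    (bn3 : 1 ≤ n3 ∧ n3 ≤ 2) (bn4 : 1 ≤ n4 ∧ n4 ≤ 2)
    (p0 : 2 ∣ s0 + r0 + r4) (p1 : 2 ∣ s1 + r1 + r0) (p2 : 2 ∣ s2 + r2 + r1)
    (p3 : 2 ∣ s3 + r3 + r2) (p4 : 2 ∣ s4 + r4 + r3)
    (q0 : s0 + n0 + n3 = 4 + 2 * z0) (q1 : s1 + n1 + n4 = 4 + 2 * z1)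
    (q2 : s2 + n2 + n0 = 4 + 2 * z2) (q3 : s3 + n3 + n1 = 4 + 2 * z3)
    (q4 : s4 + n4 + n2 = 4 + 2 * z4)
    (t0 : T0 = 0 → r0 = 1 ∧ r4 = 1 ∧ s0 = 2) (t1 : T1 = 0 → r1 = 1 ∧ r0 = 1 ∧ s1 = 2)
    (t2 : T2 = 0 → r2 = 1 ∧ r1 = 1 ∧ s2 = 2) (t3 : T3 = 0 → r3 = 1 ∧ r2 = 1 ∧ s3 = 2)
    (t4 : T4 = 0 → r4 = 1 ∧ r3 = 1 ∧ s4 = 2)
    (bad : ¬ (r0 = 1 ∧ r1 = 1 ∧ r2 = 1 ∧ r3 = 1 ∧ r4 = 1 ∧
      s0 = 2 ∧ s1 = 2 ∧ s2 = 2 ∧ s3 = 2 ∧ s4 = 2 ∧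
      n0 = 1 ∧ n1 = 1 ∧ n2 = 1 ∧ n3 = 1 ∧ n4 = 1)) :
    3 ≤ T0 + T1 + T2 + T3 + T4 + z0 + z1 + z2 + z3 + z4 := by
  have e0 : r0 ≤ T0 + 1 ∧ r4 ≤ T0 + 1 := by
    rcases Nat.eq_zero_or_pos T0 with h | h
    · obtain ⟨h1, h2, -⟩ := t0 h
      omega
    · rcases br0 with h1 | h1 <;> rcases br4 with h2 | h2 <;> omega
  have e1 : r1 ≤ T1 + 1 ∧ r0 ≤ T1 + 1 := by
    rcases Nat.eq_zero_or_pos T1 with h | h
    · obtain ⟨h1, h2, -⟩ := t1 h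
      omega
    · rcases br1 with h1 | h1 <;> rcases br0 with h2 | h2 <;> omega
  have e2 : r2 ≤ T2 + 1 ∧ r1 ≤ T2 + 1 := by
    rcases Nat.eq_zero_or_pos T2 with h | h
    · obtain ⟨h1, h2, -⟩ := t2 h
      omega
    · rcases br2 with h1 | h1 <;> rcases br1 with h2 | h2 <;> omega
  have e3 : r3 ≤ T3 + 1 ∧ r2 ≤ T3 + 1 := by
    rcases Nat.eq_zero_or_pos T3 with h | h
    · obtain ⟨h1, h2, -⟩ := t3 h
      omega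
    · rcases br3 with h1 | h1 <;> rcases br2 with h2 | h2 <;> omega
  have e4 : r4 ≤ T4 + 1 ∧ r3 ≤ T4 + 1 := by
    rcases Nat.eq_zero_or_pos T4 with h | h
    · obtain ⟨h1, h2, -⟩ := t4 h
      omega
    · rcases br4 with h1 | h1 <;> rcases br3 with h2 | h2 <;> omega
  clear t0 t1 t2 t3 t4
  by_cases hall : r0 = 1 ∧ r1 = 1 ∧ r2 = 1 ∧ r3 = 1 ∧ r4 = 1
  · obtain ⟨rfl, rfl, rfl, rfl, rfl⟩ := hall
    clear e0 e1 e2 e3 e4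
    have f0 : s0 = 2 := by omega
    have f1 : s1 = 2 := by omega
    have f2 : s2 = 2 := by omega
    have f3 : s3 = 2 := by omega
    have f4 : s4 = 2 := by omega
    subst f0 f1 f2 f3 f4
    rcases bn0 with rfl | rfl
    · exfalso
      apply bad
      refine ⟨rfl, rfl, rfl, rfl, rfl, rfl, rfl, rfl, rfl, rfl, rfl, ?_, ?_, ?_, ?_⟩ <;>
        clear bad <;> omega
    · clear bad
      omega
  · clear bad
    have g0 : 1 ≤ n0 ∧ n0 ≤ 2 := by rcases bn0 with h | h <;> omega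
    clear bn0
    rcases br0 with rfl | rfl <;> rcases br1 with rfl | rfl <;> rcases br2 with rfl | rfl <;>
      rcases br3 with rfl | rfl <;> rcases br4 with rfl | rfl <;>
      first
      | (exact absurd ⟨rfl, rfl, rfl, rfl, rfl⟩ hall)
      | (clear hall; omega)

end Pool.Agent.Lib.MP_ba3dea_co
end

section

set_option autoImplicit false

namespace Pool.Agent.Lib.MP_ba3dea_co

/-- every `{1,2}`-valued sum of even 0-1 vectors on the 60-vertex graph has total at least 123 -/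
theorem lower_bound {ι : Type} [Fintype ι] (e : Fin 5 → Fin 18 → ι → ℕ)
    (le : ∀ i k c, e i k c ≤ 1)
    (v1 : ∀ i c, e i 3 c + e i 0 c + e i 12 c = 0 ∨ e i 3 c + e i 0 c + e i 12 c = 2)
    (v2 : ∀ i c, e i 4 c + e i 1 c + e i 0 c = 0 ∨ e i 4 c + e i 1 c + e i 0 c = 2)
    (v3 : ∀ i c, e i 5 c + e i 2 c + e i 1 c = 0 ∨ e i 5 c + e i 2 c + e i 1 c = 2)
    (v4 : ∀ i c, e i 6 c + e i 13 c + e i 2 c = 0 ∨ e i 6 c + e i 13 c + e i 2 c = 2)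
    (v5 : ∀ i c, e i 14 c + e i 7 c + e i 11 c = 0 ∨ e i 14 c + e i 7 c + e i 11 c = 2)
    (v6 : ∀ i c, e i 3 c + e i 10 c + e i 9 c = 0 ∨ e i 3 c + e i 10 c + e i 9 c = 2)
    (v7 : ∀ i c, e i 4 c + e i 8 c + e i 7 c = 0 ∨ e i 4 c + e i 8 c + e i 7 c = 2)
    (v8 : ∀ i c, e i 5 c + e i 11 c + e i 10 c = 0 ∨ e i 5 c + e i 11 c + e i 10 c = 2)
    (v9 : ∀ i c, e i 6 c + e i 9 c + e i 8 c = 0 ∨ e i 6 c + e i 9 c + e i 8 c = 2)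
    (vx : ∀ i c, e i 12 c + e i 15 c + e (i + 4) 16 c = 0 ∨
      e i 12 c + e i 15 c + e (i + 4) 16 c = 2)
    (vy : ∀ i c, e i 13 c + e i 15 c + e i 16 c = 0 ∨ e i 13 c + e i 15 c + e i 16 c = 2)
    (vz : ∀ i c, e i 14 c + e i 17 c + e (i + 3) 17 c = 0 ∨
      e i 14 c + e i 17 c + e (i + 3) 17 c = 2)
    (m : ∀ i k, ∑ c, e i k c = 1 ∨ ∑ c, e i k c = 2) :
    123 ≤ ∑ i, ∑ k, ∑ c, e i k c := by
  have bl := fun i => block (e i 0) (e i 1) (e i 2) (e i 3) (e i 4) (e i 5) (e i 6) (e i 7)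
    (e i 8) (e i 9) (e i 10) (e i 11) (e i 12) (e i 13) (e i 14) (e i 15) (e i 16) (e (i + 4) 16)
    (le i 0) (le i 1) (le i 2) (le i 3) (le i 4) (le i 5) (le i 6) (le i 7) (le i 8) (le i 9)
    (le i 10) (le i 11) (le i 12) (le i 13) (le i 14) (le i 16) (le (i + 4) 16)
    (v1 i) (v2 i) (v3 i) (v4 i) (v5 i) (v6 i) (v7 i) (v8 i) (v9 i) (vx i) (vy i)
    (m i 0) (m i 1) (m i 2) (m i 3) (m i 4) (m i 5) (m i 6) (m i 7) (m i 8) (m i 9) (m i 10)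
    (m i 11) (m i 12) (m i 13) (m i 14) (m i 15) (m i 16) (m (i + 4) 16)
  have rim := fun i => (bl i).1
  have blT := fun i => (bl i).2
  choose T hT hT0 using blT
  have hz := fun i => par_sum _ _ _ (vz i) (m i 14) (m i 17) (m (i + 3) 17)
  choose z hz using hz
  have rimp : ∀ i, 2 ∣ ∑ c, e i 14 c + ∑ c, e i 16 c + ∑ c, e (i + 4) 16 c := by
    intro i
    rw [← Finset.sum_add_distrib, ← Finset.sum_add_distrib]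
    exact sum_even _ (rim i)
  have hB : ∀ i, 2 * (∑ k, ∑ c, e i k c) + ∑ c, e (i + 4) 16 c + ∑ c, e (i + 3) 17 c =
      48 + 2 * T i + 2 * z i + ∑ c, e i 16 c + ∑ c, e i 17 c := by
    intro i
    have h1 := hT i
    have h2 := hz i
    have h3 : ∑ k, ∑ c, e i k c = (∑ c, e i 0 c + ∑ c, e i 1 c + ∑ c, e i 2 c + ∑ c, e i 3 c +
        ∑ c, e i 4 c + ∑ c, e i 5 c +
        ∑ c, e i 6 c + ∑ c, e i 7 c + ∑ c, e i 8 c + ∑ c, e i 9 c + ∑ c, e i 10 c +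
        ∑ c, e i 11 c + ∑ c, e i 12 c + ∑ c, e i 13 c + ∑ c, e i 15 c) + ∑ c, e i 14 c +
        ∑ c, e i 16 c + ∑ c, e i 17 c := by
      simp only [Fin.sum_univ_succ, Fin.sum_univ_zero]
      have : ∀ a b d f g h i j k l m n o p q r s t : ℕ, a + (b + (d + (f + (g + (h + (i + (j + (k +
        (l + (m + (n + (o + (p + (q + (r + (s + (t + 0))))))))))))))))) =
        (a + b + d + f + g + h + i + j + k + l + m + n + o + p + r) + q + s + t := by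
        intros; ring
      exact this _ _ _ _ _ _ _ _ _ _ _ _ _ _ _ _ _ _
    rw [h3]
    linarith
  have O : ∀ i k, 1 ≤ ∑ c, e i k c ∧ ∑ c, e i k c ≤ 2 := fun i k => by
    rcases m i k with h | h <;> rw [h] <;> decide
  have bad : ¬ (∑ c, e 0 16 c = 1 ∧ ∑ c, e 1 16 c = 1 ∧ ∑ c, e 2 16 c = 1 ∧ ∑ c, e 3 16 c = 1 ∧
      ∑ c, e 4 16 c = 1 ∧
      ∑ c, e 0 14 c = 2 ∧ ∑ c, e 1 14 c = 2 ∧ ∑ c, e 2 14 c = 2 ∧ ∑ c, e 3 14 c = 2 ∧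
      ∑ c, e 4 14 c = 2 ∧
      ∑ c, e 0 17 c = 1 ∧ ∑ c, e 1 17 c = 1 ∧ ∑ c, e 2 17 c = 1 ∧ ∑ c, e 3 17 c = 1 ∧
      ∑ c, e 4 17 c = 1) := by
    rintro ⟨r0, r1, r2, r3, r4, s0, s1, s2, s3, s4, n0, n1, n2, n3, n4⟩
    have hr : ∀ i, ∑ c, e i 16 c = 1 := by intro i; fin_cases i <;> assumption
    have hn : ∀ i, ∑ c, e i 17 c = 1 := by intro i; fin_cases i <;> assumption
    refine petersen_defect (fun i => e i 16) (fun i => e i 14) (fun i => e i 17)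
      (fun i => le i 16) (fun i => le i 14) (fun i => le i 17) rim vz
      (fun i => m i 16) (fun i => m i 14) (fun i => m i 17) ?_ ?_
    · rintro i ⟨-, h, -⟩
      change ∑ c, e i 16 c = 2 at h
      have := hr i
      omega
    · rintro i ⟨-, h, -⟩
      change ∑ c, e i 17 c = 2 at h
      have := hn i
      omega
  have key := endgame (∑ c, e 0 16 c) (∑ c, e 1 16 c) (∑ c, e 2 16 c) (∑ c, e 3 16 c)
    (∑ c, e 4 16 c) (∑ c, e 0 14 c) (∑ c, e 1 14 c) (∑ c, e 2 14 c) (∑ c, e 3 14 c)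
    (∑ c, e 4 14 c) (∑ c, e 0 17 c) (∑ c, e 1 17 c) (∑ c, e 2 17 c) (∑ c, e 3 17 c)
    (∑ c, e 4 17 c) (T 0) (T 1) (T 2) (T 3) (T 4) (z 0) (z 1) (z 2) (z 3) (z 4)
    (m 0 16) (m 1 16) (m 2 16) (m 3 16) (m 4 16) (O 0 14) (O 1 14) (O 2 14) (O 3 14) (O 4 14)
    (m 0 17) (O 1 17) (O 2 17) (O 3 17) (O 4 17)
    (rimp 0) (rimp 1) (rimp 2) (rimp 3) (rimp 4) (hz 0) (hz 1) (hz 2) (hz 3) (hz 4)
    (hT0 0) (hT0 1) (hT0 2) (hT0 3) (hT0 4) bad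
  have B0 : 2 * (∑ k, ∑ c, e 0 k c) + ∑ c, e 4 16 c + ∑ c, e 3 17 c =
      48 + 2 * T 0 + 2 * z 0 + ∑ c, e 0 16 c + ∑ c, e 0 17 c := hB 0
  have B1 : 2 * (∑ k, ∑ c, e 1 k c) + ∑ c, e 0 16 c + ∑ c, e 4 17 c =
      48 + 2 * T 1 + 2 * z 1 + ∑ c, e 1 16 c + ∑ c, e 1 17 c := hB 1
  have B2 : 2 * (∑ k, ∑ c, e 2 k c) + ∑ c, e 1 16 c + ∑ c, e 0 17 c =
      48 + 2 * T 2 + 2 * z 2 + ∑ c, e 2 16 c + ∑ c, e 2 17 c := hB 2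
  have B3 : 2 * (∑ k, ∑ c, e 3 k c) + ∑ c, e 2 16 c + ∑ c, e 1 17 c =
      48 + 2 * T 3 + 2 * z 3 + ∑ c, e 3 16 c + ∑ c, e 3 17 c := hB 3
  have B4 : 2 * (∑ k, ∑ c, e 4 k c) + ∑ c, e 3 16 c + ∑ c, e 2 17 c =
      48 + 2 * T 4 + 2 * z 4 + ∑ c, e 4 16 c + ∑ c, e 4 17 c := hB 4
  have hs : ∑ i, ∑ k, ∑ c, e i k c = (∑ k, ∑ c, e 0 k c) + (∑ k, ∑ c, e 1 k c) +
      (∑ k, ∑ c, e 2 k c) + (∑ k, ∑ c, e 3 k c) + (∑ k, ∑ c, e 4 k c) := Fin.sum_univ_five _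
  rw [hs]
  clear hs hB hT hT0 hz rimp bl rim bad O
  linarith

end Pool.Agent.Lib.MP_ba3dea_co
end
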